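import Pool.Agent.MP_bd94e8_al.H83A.Kit

/-!
The data of the reduction exist.
-/

set_option autoImplicit false
set_option linter.unusedSectionVars false
set_option linter.unusedVariables false
set_option linter.style.haveILetI false

namespace Pool.Agent.MP_bd94e8_al.H83A

open Module Function IsLocalRing H89

namespace RedA

/-- The endomorphism ring as a new type. -/
def Fd (A S : Type) [Ring A] [AddCommGroup S] [Module A S] : Type := Module.End A S

instance (A S : Type) [Ring A] [AddCommGroup S] [Module A S] : Ring (Fd A S) :=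
  inferInstanceAs (Ring (Module.End A S))

/-- The endomorphism field of a simple module. -/
theorem exists_field (C A S : Type) [CommRing C] [IsArtinianRing C] [IsLocalRing C] [Ring A]
    [Algebra C A] [Module.Finite C A] [AddCommGroup S] [Module A S] [IsSimpleModule A S]
    [Module.Finite A S] (hcomm : ∀ σ τ : Module.End A S, σ * τ = τ * σ)
    (hm : ∀ c ∈ maximalIdeal C, ∀ x : S, algebraMap C A c • x = 0)
    (hpi : ∀ σ : Module.End A S, ∃ (r : ℕ) (c : C), ∀ x,
      (σ ^ (ringExpChar (ResidueField C) ^ r)) x = algebraMap C A c • x) :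
    ∃ (F : Type) (_ : Field F) (_ : Algebra (ResidueField C) F) (_ : Algebra C F)
      (_ : IsScalarTower C (ResidueField C) F) (_ : FiniteDimensional (ResidueField C) F)
      (_ : IsPurelyInseparable (ResidueField C) F) (_ : Module F S) (_ : SMulCommClass A F S),
      (∀ σ : S →ₗ[A] S, ∃ c : F, ∀ x, σ x = c • x) ∧
      ∀ (c : C) (x : S), algebraMap C A c • x = algebraMap C F c • x := by
  classical
  letI := modC C A S
  haveI := towC C A S
  have hF : IsField (Fd A S) :=
    ⟨(inferInstance : Nontrivial (Module.End A S)).exists_pair_ne, hcomm, fun {σ} h =>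
      ⟨((show Module.End A S from σ)⁻¹ : Module.End A S),
        mul_inv_cancel₀ (G₀ := Module.End A S) h⟩⟩
  letI : Field (Fd A S) := hF.toField
  letI : Algebra C (Fd A S) := (inferInstance : Algebra C (Module.End A S))
  letI : Module (Fd A S) S := (inferInstance : Module (Module.End A S) S)
  have hc : ∀ (c : C) (x : S), algebraMap C A c • x = algebraMap C (Fd A S) c • x :=
    fun c x => rfl
  have h0 : ∀ c ∈ maximalIdeal C, algebraMap C (Fd A S) c = 0 := fun c h =>
    LinearMap.ext fun x => hm c h x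
  letI : Algebra (ResidueField C) (Fd A S) :=
    (Ideal.Quotient.lift (maximalIdeal C) (algebraMap C (Fd A S)) h0).toAlgebra
  haveI : IsScalarTower C (ResidueField C) (Fd A S) := IsScalarTower.of_algebraMap_eq fun c => rfl
  haveI : Module.Finite C (Fd A S) := H83.homFin (C := C) (A := A) (M := S) (B := S)
  refine ⟨Fd A S, inferInstance, inferInstance, inferInstance, inferInstance,
    Module.Finite.of_restrictScalars_finite C _ _, ?_, inferInstance,
    ⟨fun a σ x => ((show Module.End A S from σ).map_smul a x).symm⟩, fun σ => ⟨σ, fun x => rfl⟩, hc⟩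
  rw [isPurelyInseparable_iff_pow_mem _ (ringExpChar (ResidueField C))]
  intro σ
  obtain ⟨r, c, h⟩ := hpi σ
  exact ⟨r, residue C c, LinearMap.ext fun x => (h x).symm⟩

section cyc
variable {A S : Type} [Ring A] [AddCommGroup S] [Module A S] {e : A} {a : S}

/-- A generator of a module that is killed by the radical and fixed by a local idempotent. -/
structure Cyc (e : A) (a : S) : Prop where
  idem : IsIdempotentElem e
  loc : LocAt e
  ne : a ≠ 0
  fix : e • a = a
  jac : ∀ r ∈ Ring.jacobson A, r • a = 0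
  gen : ∀ x : S, ∃ y : A, y • a = x

theorem Cyc.inv (h : Cyc e a) {r : A} (hr : r * e ∉ Ring.jacobson A) : ∃ y, y * (r * e) = e := by
  obtain ⟨y, -, hy⟩ := h.loc.left_inv IsIdempotentElem.one h.idem
    (x := r * e) (by rw [one_mul, mul_assoc, h.idem.eq]) hr
  exact ⟨y, hy⟩

theorem Cyc.mem_jac (h : Cyc e a) {r : A} (hr : r • a = 0) : r * e ∈ Ring.jacobson A := by
  by_contra hn
  obtain ⟨y, hy⟩ := h.inv hn
  apply h.ne
  rw [← h.fix, ← hy, mul_smul, mul_smul, h.fix, hr, smul_zero]

theorem Cyc.simple (h : Cyc e a) : IsSimpleModule A S := by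
  refine isSimpleModule_iff_toSpanSingleton_surjective.2 ⟨⟨a, 0, h.ne⟩, fun x hx z => ?_⟩
  obtain ⟨r, rfl⟩ := h.gen x
  obtain ⟨w, rfl⟩ := h.gen z
  obtain ⟨y, hy⟩ := h.inv (r := r) fun hr => hx (by rw [← h.fix, ← mul_smul, h.jac _ hr])
  refine ⟨w * y, ?_⟩
  rw [LinearMap.toSpanSingleton_apply, mul_smul]
  conv_rhs => rw [← h.fix, ← hy, mul_smul, mul_smul, h.fix]

theorem Cyc.finite (h : Cyc e a) : Module.Finite A S :=
  Module.Finite.of_surjective (LinearMap.toSpanSingleton A S a) h.gen

theorem Cyc.jac' (h : Cyc e a) {r : A} (hr : r ∈ Ring.jacobson A) (x : S) : r • x = 0 := by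
  obtain ⟨y, rfl⟩ := h.gen x
  rw [← mul_smul, h.jac _ (Ideal.mul_mem_right _ _ hr)]

theorem Cyc.ext (h : Cyc e a) {M : Type} [AddCommGroup M] [Module A M] {σ τ : S →ₗ[A] M}
    (e1 : σ a = τ a) : σ = τ := LinearMap.ext fun x => by
  obtain ⟨y, rfl⟩ := h.gen x
  rw [map_smul, map_smul, e1]

theorem Cyc.corner (h : Cyc e a) (σ : S →ₗ[A] S) : ∃ b : A, σ a = (e * b * e) • a := by
  obtain ⟨b, hb⟩ := h.gen (σ a)
  refine ⟨b, ?_⟩
  rw [mul_smul, mul_smul, h.fix, hb, ← map_smul, h.fix]

theorem Cyc.nil (h : Cyc e a) {b : A} (hb : e * b * e = b) (hn : IsNilpotent b) : b • a = 0 :=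
  h.jac _ (h.loc.mem_jac h.idem hb hn)

theorem Cyc.comm (h : Cyc e a)
    (hc : ∀ b b', IsNilpotent (e * b * e * (e * b' * e) - e * b' * e * (e * b * e)))
    (σ τ : Module.End A S) : σ * τ = τ * σ := by
  obtain ⟨b, hb⟩ := h.corner σ
  obtain ⟨b', hb'⟩ := h.corner τ
  refine h.ext ?_
  rw [Module.End.mul_apply, Module.End.mul_apply, hb, hb', map_smul, map_smul, hb, hb',
    ← mul_smul, ← mul_smul, ← sub_eq_zero, ← sub_smul]
  refine h.nil ?_ (hc b' b)
  simp only [mul_sub, sub_mul, ← mul_assoc, h.idem.eq]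
  simp only [mul_assoc, h.idem.eq]

theorem pow_gen {σ : Module.End A S} {b : A} (hb : σ a = b • a) (n : ℕ) :
    (σ ^ n) a = b ^ n • a := by
  induction n with
  | zero => simp
  | succ n ih => rw [pow_succ, Module.End.mul_apply, hb, map_smul, ih, ← mul_smul, ← pow_succ']

theorem Cyc.pi (C : Type) [CommRing C] [Algebra C A] (h : Cyc e a) {q : ℕ} (hq : 0 < q)
    (hp : ∀ b, ∃ (r : ℕ) (c : C), IsNilpotent ((e * b * e) ^ (q ^ r) - c • e))
    (σ : Module.End A S) : ∃ (r : ℕ) (c : C), ∀ x, (σ ^ (q ^ r)) x = algebraMap C A c • x := by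
  obtain ⟨b, hb⟩ := h.corner σ
  obtain ⟨r, c, hn⟩ := hp b
  refine ⟨r, c, fun x => ?_⟩
  obtain ⟨y, rfl⟩ := h.gen x
  have h1 : (σ ^ (q ^ r)) a = algebraMap C A c • a := by
    rw [pow_gen hb, ← sub_eq_zero]
    conv_lhs => rw [← h.fix, ← mul_smul (algebraMap C A c), h.fix]
    rw [← Algebra.smul_def, ← sub_smul]
    refine h.nil ?_ hn
    obtain ⟨m, hm⟩ := Nat.exists_eq_add_of_lt (pow_pos hq r)
    have e1 := cn_cn h.idem h.idem b
    rw [hm, zero_add, mul_sub, sub_mul, mul_smul_comm, smul_mul_assoc, h.idem.eq, h.idem.eq]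
    congr 1
    rw [pow_succ', ← mul_assoc, cn_left h.idem e1, ← pow_succ', pow_succ, mul_assoc,
      cn_right h.idem e1]
  rw [map_smul, h1, ← mul_smul, ← mul_smul, Algebra.commutes]

theorem le_Wm {Z : Type} [AddCommGroup Z] [Module A Z] (ι : S →ₗ[A] Z) {M : Type} [AddCommGroup M]
    [Module A M] (g : Z →ₗ[A] M) (x : S) : g (ι x) ∈ Wm ι M :=
  le_iSup (fun g : Z →ₗ[A] M => LinearMap.range (g ∘ₗ ι)) g ⟨x, rfl⟩

theorem Cyc.jac_Wm (h : Cyc e a) {M : Type} [AddCommGroup M] [Module A M] {r : A}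
    (hr : r ∈ Ring.jacobson A) {w : M} (hw : w ∈ Wm (LinearMap.id : S →ₗ[A] S) M) : r • w = 0 := by
  refine Submodule.iSup_induction _ (motive := fun w => r • w = 0) hw ?_ (smul_zero r) ?_
  · rintro g _ ⟨x, rfl⟩
    rw [← map_smul, h.jac' hr, map_zero]
  · intro x y hx hy
    rw [smul_add, hx, hy, add_zero]

theorem Cyc.zero_Wm (h : Cyc e a) {M : Type} [AddCommGroup M] [Module A M] {w : M}
    (hw : w ∈ Wm (LinearMap.id : S →ₗ[A] S) M) (h0 : ∀ r : A, (e * r) • w = 0) : w = 0 := by
  have := h.simple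
  have hss : IsSemisimpleModule A (Wm (LinearMap.id : S →ₗ[A] S) M) := by
    have := isSemisimpleModule_biSup_of_isSemisimpleModule_submodule (s := Set.univ)
      (p := fun g : S →ₗ[A] M => LinearMap.range (g ∘ₗ (LinearMap.id : S →ₗ[A] S)))
      fun g _ => IsSemisimpleModule.range _
    rwa [iSup_univ] at this
  let W0 : Submodule A (Wm (LinearMap.id : S →ₗ[A] S) M) :=
    { carrier := {v | ∀ r : A, (e * r) • v = 0}
      add_mem' := fun hx hy r => by rw [smul_add, hx r, hy r, add_zero]
      zero_mem' := fun r => smul_zero _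
      smul_mem' := fun c v hv r => by rw [← mul_smul, mul_assoc, hv] }
  obtain ⟨Q, hQ⟩ := exists_isCompl W0
  have hle : Wm (LinearMap.id : S →ₗ[A] S) M ≤ Q.map (Submodule.subtype _) := by
    refine iSup_le ?_
    rintro g _ ⟨x, rfl⟩
    obtain ⟨y, rfl⟩ := h.gen x
    rw [map_smul]
    refine Submodule.smul_mem _ _ ?_
    obtain ⟨u, hu, v, hv, huv⟩ := Submodule.mem_sup.1
      (hQ.sup_eq_top ▸ Submodule.mem_top : (⟨g a, le_Wm LinearMap.id g a⟩ : Wm _ M) ∈ W0 ⊔ Q)
    refine ⟨e • v, Q.smul_mem _ hv, ?_⟩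
    have h1 : e • u = 0 := by simpa using hu 1
    have h2 : e • v = e • (⟨g a, le_Wm LinearMap.id g a⟩ : Wm _ M) := by
      rw [← huv, smul_add, h1, zero_add]
    rw [h2]
    change e • g a = g a
    rw [← map_smul, h.fix]
  obtain ⟨v, hv, rfl⟩ := hle hw
  have h1 : v ∈ W0 := fun r => Subtype.ext (h0 r)
  rw [Submodule.disjoint_def.1 hQ.disjoint v h1 hv, map_zero]

theorem Cyc.quot (h : Cyc e a)
    (hb : ∀ r ∈ Ring.jacobson A, e * r * e ∈ Ring.jacobson A * Ring.jacobson A) (M : Type)
    [AddCommGroup M] [Module A M] (g : S →ₗ[A] M ⧸ Wm (LinearMap.id : S →ₗ[A] S) M) : g = 0 := by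
  obtain ⟨x₀, hx₀⟩ := Submodule.mkQ_surjective (Wm (LinearMap.id : S →ₗ[A] S) M) (g a)
  have hx : (Wm (LinearMap.id : S →ₗ[A] S) M).mkQ (e • x₀) = g a := by
    rw [map_smul, hx₀, ← map_smul, h.fix]
  have hex : e • e • x₀ = e • x₀ := by rw [← mul_smul, h.idem.eq]
  generalize e • x₀ = x at hx hex
  have h1 : ∀ r ∈ Ring.jacobson A, r • x ∈ Wm (LinearMap.id : S →ₗ[A] S) M := fun r hr => by
    rw [← Submodule.Quotient.mk_eq_zero, ← Submodule.mkQ_apply, map_smul, hx, ← map_smul,
      h.jac r hr, map_zero]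
  have h2 : ∀ r ∈ Ring.jacobson A * Ring.jacobson A, r • x = 0 := fun r hr => by
    refine Submodule.smul_induction_on (p := fun r : A => r • x = 0) hr ?_ ?_
    · intro u hu v hv
      rw [smul_eq_mul, mul_smul, h.jac_Wm hu (h1 v hv)]
    · intro u v hu hv
      rw [add_smul, hu, hv, add_zero]
  have h3 : ∀ r ∈ Ring.jacobson A, r • x = 0 := fun r hr =>
    h.zero_Wm (h1 r hr) fun r' => by
      have := h2 _ (hb (r' * r) (Ideal.mul_mem_left _ _ hr))
      rwa [mul_smul, hex, ← mul_assoc, mul_smul] at this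
  obtain ⟨u, hu⟩ := H83.exists_desc (ρ := LinearMap.toSpanSingleton A S a) h.gen
    (LinearMap.toSpanSingleton A M x) fun r hr => by
      have := h3 _ (h.mem_jac hr)
      rwa [mul_smul, hex] at this
  have h4 : u a = x := by simpa using LinearMap.congr_fun hu 1
  refine h.ext ?_
  rw [← hx, ← h4, LinearMap.zero_apply, Submodule.mkQ_apply, Submodule.Quotient.mk_eq_zero]
  exact le_Wm LinearMap.id u a

end cyc

section span
variable {A : Type} [Ring A]

/-- The generator of a cyclic left ideal. -/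
def gn (a : A) : Submodule.span A {a} := ⟨a, Submodule.mem_span_singleton_self a⟩

theorem gn_gen (a : A) (x : Submodule.span A {a}) : ∃ y : A, y • gn a = x := by
  obtain ⟨y, hy⟩ := Submodule.mem_span_singleton.1 x.2
  exact ⟨y, Subtype.ext hy⟩

theorem cyc_span {e a : A} (he : IsIdempotentElem e) (hl : LocAt e) (ha : a ≠ 0) (hea : e * a = a)
    (hJ : ∀ r ∈ Ring.jacobson A, r * a = 0) : Cyc e (gn a) :=
  ⟨he, hl, fun h => ha (congrArg Subtype.val h), Subtype.ext hea,
    fun r hr => Subtype.ext (hJ r hr), gn_gen a⟩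

/-- Right multiplication into a cyclic left ideal. -/
def rmul (f w : A) : A →ₗ[A] Submodule.span A {f} :=
  LinearMap.toSpanSingleton A _ (w • gn f)

theorem rmul_val (f w x : A) : (rmul f w x).1 = x * (w * f) := rfl

theorem proj_span {f : A} (hf : IsIdempotentElem f) : Projective A (Submodule.span A {f}) :=
  Module.Projective.of_split (Submodule.subtype _) (rmul f 1) (LinearMap.ext fun x => by
    obtain ⟨y, rfl⟩ := gn_gen f x
    apply Subtype.ext
    change y * f * (1 * f) = y * f
    rw [one_mul, mul_assoc, hf.eq])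

end span

end RedA

open RedA in
theorem sRed : SRed := by
  intro C A _ _ _ _ _ _ n e hP hab
  have hex : ∀ (s : Fin n) (a : A), Cyc (e s) (gn a) → _ := fun s a h =>
    haveI := h.simple
    haveI := h.finite
    exists_field C A (Submodule.span A {a}) (h.comm (hP.comm s))
      (fun c hc x => h.jac' (by
        rw [Algebra.algebraMap_eq_smul_one]
        exact smul_mem_jac C (max_nil C hc) 1) x)
      (h.pi C (expChar_pos (ResidueField C) _) (hP.pi s))
  rcases hab with ⟨s, l, a, ha, hsl, hJ, h1, h2⟩ | ⟨s, a, ha, hs, hJ, hb⟩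
  · have hs := hP.idem.idem s
    have hl := hP.idem.idem l
    have h := cyc_span hs (PIA.locAt C hP s) ha (cn_left hs hsl) hJ
    obtain ⟨F, i1, i2, i3, i4, i5, i6, i7, i8, hscal, hc⟩ := hex s a h
    have := i8.symm
    have hle : Submodule.span A {a} ≤ Submodule.span A {e l} :=
      (Submodule.span_singleton_le_iff_mem _ _).2
        (Submodule.mem_span_singleton.2 ⟨a, cn_right hl hsl⟩)
    have hpr := proj_span hl
    refine ⟨F, Submodule.span A {a}, Submodule.span A {e l}, i1, i2, i3, i4, i5, i6, inferInstance,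
      inferInstance, i7, i8, inferInstance, inferInstance, inferInstance,
      Submodule.inclusion hle, ⟨h.simple, Submodule.inclusion_injective hle, hscal, fun c => ?_,
        fun M _ _ g => ?_, ⟨Submodule.subtype _, fun h0 => ha ?_⟩, Or.inr ⟨hpr, fun τ x => ?_⟩⟩, hc⟩
    · obtain ⟨b, hb⟩ := h.corner (DistribSMul.toLinearMap A _ c)
      obtain ⟨b', hb'⟩ := h1 b
      refine ⟨rmul (e l) (e l * b') ∘ₗ Submodule.subtype _, fun x => ?_⟩
      obtain ⟨y, rfl⟩ := h.gen x
      have h3 : c • gn a = (e s * b * e s) • gn a := hb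
      rw [← smul_comm y c, h3]
      apply Subtype.ext
      change y * a * (e l * b' * e l) = y * (e s * b * e s * a)
      rw [hb', mul_assoc]
    · obtain ⟨g', rfl⟩ := Module.projective_lifting_property
        (Wm (Submodule.inclusion hle) M).mkQ g (Submodule.mkQ_surjective _)
      exact LinearMap.ext fun x => (Submodule.Quotient.mk_eq_zero _).2 (le_Wm _ g' x)
    · exact LinearMap.congr_fun h0 (gn a)
    · obtain ⟨y, rfl⟩ := h.gen x
      obtain ⟨w, hw⟩ := gn_gen (e l) (τ (gn (e l)))
      obtain ⟨b, hb⟩ := h2 w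
      have h3 : Submodule.inclusion hle (gn a) = (a * e l) • gn (e l) := by
        apply Subtype.ext
        change a = a * e l * e l
        rw [cn_right hl hsl, cn_right hl hsl]
      refine ⟨(y * (e s * b * e s)) • gn a, ?_⟩
      rw [map_smul _ y, map_smul τ, h3, map_smul τ, ← hw]
      apply Subtype.ext
      change y * (e s * b * e s) * a = y * (a * e l * (w * e l))
      rw [mul_assoc y, hb]
      simp only [mul_assoc]
  · have h := cyc_span (hP.idem.idem s) (PIA.locAt C hP s) ha hs hJ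
    obtain ⟨F, i1, i2, i3, i4, i5, i6, i7, i8, hscal, hc⟩ := hex s a h
    have := i8.symm
    exact ⟨F, Submodule.span A {a}, Submodule.span A {a}, i1, i2, i3, i4, i5, i6, inferInstance,
      inferInstance, i7, i8, inferInstance, inferInstance, inferInstance,
      LinearMap.id, ⟨h.simple, injective_id, hscal,
        fun c => ⟨DistribSMul.toLinearMap A _ c, fun x => rfl⟩,
        fun M _ _ g => by rw [h.quot hb M g, LinearMap.zero_comp],
        ⟨Submodule.subtype _, fun h0 => ha (LinearMap.congr_fun h0 (gn a))⟩,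
        Or.inl surjective_id⟩, hc⟩

end Pool.Agent.MP_bd94e8_al.H83A
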